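import Mathlib
import Pool.Agent.H343.Hr.Main

/-!
# `MP_eca5e6_al`: groups with countably many Busemann points

If the Cayley graph of `(G, S)` has only countably many Busemann points (for instance, if its
horofunction boundary is countable), then for every subgroup `H` of infinite index there is an
element `w` all of whose powers move some coset of `H` along a geodesic of the coset graph.  Hence
every infinite quotient of `G` has an element `w` with `|w ^ n| = n |w|` for all `n`, and no
infinite quotient of `G` is a torsion group.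

Idea: the letters of the lexicographically first shortest representatives of the cosets of `H`
form a subshift `Z` (nonempty, compact, invariant under the shift); its points are geodesic rays,
and a point of `Z` is determined by its Busemann function.  If `Z` is countable then it contains a
periodic point.
-/

set_option autoImplicit false

open Filter

namespace Pool.Agent.Results.MP_eca5e6_al.CountablyManyBusemannPoints

universe u

variable {G : Type u} [Group G]

/-- The Busemann points of a Cayley graph `Γ` of `G`: the limits of the functions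
`z ↦ d(z, y n) - d(1, y n)` along the geodesic rays `y` with `y 0 = 1`. -/
def Busemann (Γ : SimpleGraph G) : Set (G → ℤ) :=
  {b | ∃ y : ℕ → G, y 0 = 1 ∧ (∀ i j, i ≤ j → Γ.dist (y i) (y j) = j - i) ∧
    ∀ z, ∀ᶠ n : ℕ in atTop, b z = (Γ.dist z (y n) : ℤ) - (Γ.dist 1 (y n) : ℤ)}

/-- **Theorem.** -/
theorem result (G : Type u) [Group G] (S : Finset G) (hS : Subgroup.closure (S : Set G) = ⊤)
    (Γ : SimpleGraph G) (hΓ : Γ = SimpleGraph.fromRel (fun g h : G => g⁻¹ * h ∈ S))
    (A : Set (G → ℤ))
    (hA : A = Set.range (fun x : G => fun z : G =>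
      ((Γ.dist z x : ℕ) : ℤ) - ((Γ.dist 1 x : ℕ) : ℤ))) :
    -- Busemann points are boundary points
    Busemann Γ ⊆ closure A \ A ∧
    -- (1) if there are only countably many: coset spaces of subgroups of infinite index
    ((Busemann Γ).Countable → ∀ H : Subgroup G, ¬ H.FiniteIndex →
      ∃ w : G, 0 < Γ.dist 1 w ∧ ∀ n : ℕ, ∃ v : G, ∀ a ∈ H,
        n * Γ.dist 1 w + Γ.dist 1 v ≤ Γ.dist 1 (w ^ n * v * a)) ∧
    -- (2) if there are only countably many: infinite quotients
    ((Busemann Γ).Countable → ∀ N : Subgroup G, N.Normal → ¬ N.FiniteIndex →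
      ∃ w : G, 0 < Γ.dist 1 w ∧ ∀ n : ℕ, ∀ a ∈ N, n * Γ.dist 1 w ≤ Γ.dist 1 (w ^ n * a)) ∧
    -- (3) groups with an infinite torsion quotient
    ((∃ N : Subgroup G, N.Normal ∧ ¬ N.FiniteIndex ∧ ∀ g : G, ∃ k : ℕ, 0 < k ∧ g ^ k ∈ N) →
      ¬ (Busemann Γ).Countable ∧ ¬ (closure A \ A).Countable) := by
  have hL := Pool.Agent.Horo.lenFun hS hΓ
  have hinv : ∀ y x : G, Γ.dist 1 (y⁻¹ * x) = Γ.dist y x := by
    intro y x
    have := Pool.Agent.Horo.dist_mul hS hΓ y⁻¹ y x
    rwa [inv_mul_cancel] at this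
  have hB : Busemann Γ = Pool.Agent.H343.Hr.Bus (fun x : G => Γ.dist 1 x) := by
    unfold Busemann Pool.Agent.H343.Hr.Bus
    simp only [hinv]
  have hA' : A = Set.range (Pool.Agent.Horo.bf (fun x : G => Γ.dist 1 x)) := by
    rw [hA]
    congr 1
    funext x z
    show _ = ((Γ.dist 1 (z⁻¹ * x) : ℕ) : ℤ) - ((Γ.dist 1 x : ℕ) : ℤ)
    rw [hinv]
  have h0 : Busemann Γ ⊆ closure A \ A := by
    rw [hB, hA']
    exact Pool.Agent.H343.Hr.bus_sub hL
  have h2 : (Busemann Γ).Countable → ∀ N : Subgroup G, N.Normal → ¬ N.FiniteIndex →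
      ∃ w : G, 0 < Γ.dist 1 w ∧ ∀ n : ℕ, ∀ a ∈ N, n * Γ.dist 1 w ≤ Γ.dist 1 (w ^ n * a) := by
    intro hc N hN hfi
    rw [hB] at hc
    exact Pool.Agent.H343.Hr.main_normal hL hN hfi hc
  refine ⟨h0, ?_, h2, ?_⟩
  · intro hc H hfi
    rw [hB] at hc
    exact Pool.Agent.H343.Hr.main hL hfi hc
  · rintro ⟨N, hN, hfi, htor⟩
    have h3 : ¬ (Busemann Γ).Countable := by
      intro hc
      obtain ⟨w, hw, h⟩ := h2 hc N hN hfi
      obtain ⟨k, hk, hkN⟩ := htor w
      have h4 := h k (w ^ k)⁻¹ (N.inv_mem hkN)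
      rw [mul_inv_cancel, SimpleGraph.dist_self] at h4
      have h5 : 0 < k * Γ.dist 1 w := Nat.mul_pos hk hw
      omega
    exact ⟨h3, fun hc => h3 (hc.mono h0)⟩

end Pool.Agent.Results.MP_eca5e6_al.CountablyManyBusemannPoints
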